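import Pool.Agent.H221.TW.Cen

/-!
Part S_opt of project TW (helper221): an optimal centre exists and is an interior point.
-/

set_option autoImplicit false

namespace Pool.Agent.H275.TW

open Set
open Pool.Agent.H332.HT (V2 V3)

theorem comb {K : Set V3} (hK : Convex ℝ K) {m : ℝ} (hm : 0 < m) {o y : V3} (hy : y ∈ K)
    (h : o - m • (y - o) ∈ K) : o ∈ K := by
  have h1 : (m / (1 + m)) • y + (1 / (1 + m)) • (o - m • (y - o)) ∈ K :=
    hK hy h (by positivity) (by positivity) (by field_simp; ring)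
  have h2 : (m / (1 + m)) • y + (1 / (1 + m)) • (o - m • (y - o)) = o := by
    have hne : (1 + m) ≠ 0 := by positivity
    have e1 : o = (1 / (1 + m)) • ((1 + m) • o) := by
      rw [smul_smul, one_div, inv_mul_cancel₀ hne, one_smul]
    conv_rhs => rw [e1]
    have e2 : (m / (1 + m)) • y = (1 / (1 + m)) • (m • y) := by
      rw [smul_smul]; congr 1; ring
    rw [e2, ← smul_add]
    congr 1
    rw [smul_sub, add_smul, one_smul]
    abel
  rwa [h2] at h1

theorem opt : Pool.Agent.H221.TW.S_opt := by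
  intro h3 K hc hK hi
  obtain ⟨y0, hy0⟩ := hi
  have hy0K := interior_subset hy0
  obtain ⟨p, hp, hp2⟩ := h3 K hc hK ⟨y0, hy0K⟩
  set F : Set (ℝ × V3) := {z | 1 / 3 ≤ z.1 ∧ z.1 ≤ 1 ∧ z.2 ∈ K ∧
    ∀ y ∈ K, z.2 - z.1 • (y - z.2) ∈ K} with hF
  have hFc : IsCompact F := by
    have hcl : IsClosed F := by
      have : F = {z | 1 / 3 ≤ z.1} ∩ {z | z.1 ≤ 1} ∩ {z | z.2 ∈ K} ∩
          ⋂ y ∈ K, {z : ℝ × V3 | z.2 - z.1 • (y - z.2) ∈ K} := by
        ext z; simp [hF, and_assoc]
      rw [this]
      refine ((isClosed_le continuous_const continuous_fst).inter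
        (isClosed_le continuous_fst continuous_const)).inter
        (hc.isClosed.preimage continuous_snd) |>.inter ?_
      refine isClosed_biInter fun y _ => hc.isClosed.preimage ?_
      fun_prop
    have hpc : IsCompact (Set.Icc (1 / 3 : ℝ) 1 ×ˢ K) := isCompact_Icc.prod hc
    refine hpc.of_isClosed_subset hcl ?_
    rintro z ⟨a, b, c, -⟩
    exact ⟨⟨a, b⟩, c⟩
  have hFn : F.Nonempty := ⟨(1 / 3, p), by norm_num, by norm_num, hp, hp2⟩
  obtain ⟨⟨m, o⟩, hmo, hmax⟩ := hFc.exists_isMaxOn hFn continuous_fst.continuousOn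
  obtain ⟨m1, m2, hoK, hfe⟩ := hmo
  simp only at m1 m2 hoK hfe
  have hm : 0 < m := by linarith
  refine ⟨o, 1 / m, ?_, ?_, ?_, ?_, ?_⟩
  · have hk := hfe y0 hy0K
    have hseg : o ∈ openSegment ℝ y0 (o - m • (y0 - o)) := by
      refine ⟨m / (1 + m), 1 / (1 + m), by positivity, by positivity, by field_simp; ring, ?_⟩
      have hne : (1 + m) ≠ 0 := by positivity
      have e1 : o = (1 / (1 + m)) • ((1 + m) • o) := by
        rw [smul_smul, one_div, inv_mul_cancel₀ hne, one_smul]
      conv_rhs => rw [e1]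
      have e2 : (m / (1 + m)) • y0 = (1 / (1 + m)) • (m • y0) := by
        rw [smul_smul]; congr 1; ring
      rw [e2, ← smul_add]
      congr 1
      rw [smul_sub, add_smul, one_smul]
      abel
    exact hK.openSegment_interior_self_subset_interior hy0 hk hseg
  · rw [le_div_iff₀ hm]; linarith
  · rw [div_le_iff₀ hm]; linarith
  · intro y hy
    rw [one_div_one_div]
    exact hfe y hy
  · intro o' lam' hl' hf'
    have hl0 : 0 < lam' := by linarith
    rcases le_or_gt lam' 3 with h | h
    · have hmem : ((1 / lam', o') : ℝ × V3) ∈ F := by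
        refine ⟨?_, ?_, ?_, hf'⟩
        · exact one_div_le_one_div_of_le hl0 h
        · simp only; rw [div_le_iff₀ hl0]; linarith
        · exact comb hK (m := 1 / lam') (by positivity) hy0K (hf' y0 hy0K)
      have := hmax hmem
      exact (one_div_le hm hl0).2 this
    · have : 1 / m ≤ 3 := by rw [div_le_iff₀ hm]; linarith
      linarith

end Pool.Agent.H275.TW
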